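import Pool.Agent.Helper40.WD.Stmts

/-! # Row TZ: the traces of the operator of a continuous affine map tend to zero -/

set_option autoImplicit false

namespace Pool.Agent.Helper20.WD

open Pool.Agent.Helper40.WD Filter Topology

theorem tz_zero (D : Dav) (v : Evec D) (N k : ℕ) (hk : N + 1 < k) (j : Fin (mm k)) :
    th D N (v.e k j) = 0 := by
  funext n l g
  show (if l ≤ n ∧ n ≤ N then ((v.e k j : Wd D) : LI) ⟨l, g⟩ else 0) = 0
  split_ifs with h
  · exact v.zero k j l g (by omega) (by omega)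
  · rfl

theorem st_TZ (h1 : ST_XCP) (h2 : ST_THX) (h3 : ST_AGR) (h4 : ST_AFF) (h5 : ST_BB) :
    ST_TZ := by
  intro D v a ha haff
  have hc := (h1 D).1
  obtain ⟨R, hR⟩ := h4 D a hc ha haff (thI D) fun w hw => (h2 D w hw).1
  refine ⟨R, hR, ?_⟩
  intro ε hε
  obtain ⟨C, hC, hB⟩ := h5 D v
  obtain ⟨n, hn⟩ := h3 D a hc ha (ε / C) (by positivity)
  obtain ⟨Q, hQ⟩ := h4 D a hc ha haff (th D n) fun w hw => (h2 D w hw).2 n
  have h0 : (0 : VV) ∈ XX D := by
    have h := (h2 D 0 (by simp)).1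
    rwa [map_zero] at h
  have hnorm : ‖R - Q‖ ≤ ε / C := by
    refine ContinuousLinearMap.opNorm_le_of_unit_norm (by positivity) fun w hw => ?_
    have hw1 : ‖w‖ ≤ 1 := hw.le
    have e1 := hR w (h2 D w hw1).1 h0 hw1
    have e2 := hQ w ((h2 D w hw1).2 n) h0 hw1
    have e3 : (R - Q) w = a ⟨thI D w, (h2 D w hw1).1⟩ - a ⟨th D n w, (h2 D w hw1).2 n⟩ := by
      rw [ContinuousLinearMap.sub_apply, e1, e2]
      abel
    rw [e3]
    apply hn
    intro l hl
    funext k g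
    show (if k ≤ l then (w : LI) ⟨k, g⟩ else 0) = if k ≤ l ∧ l ≤ n then (w : LI) ⟨k, g⟩ else 0
    simp [hl]
  refine ⟨n + 2, fun k hk => ?_⟩
  have hz : ∀ j, Q (v.e k j) = 0 := by
    intro j
    obtain ⟨c, hcc⟩ : ∃ c : ℝ, c = ‖v.e k j‖ + 1 := ⟨_, rfl⟩
    have hc0 : 0 < c := by rw [hcc]; positivity
    have hw1 : ‖(1 / c) • v.e k j‖ ≤ 1 := by
      rw [norm_smul, Real.norm_of_nonneg (by positivity), one_div, inv_mul_le_iff₀ hc0]
      linarith
    have ht : th D n ((1 / c) • v.e k j) = 0 := by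
      rw [map_smul, tz_zero D v n k (by omega) j, smul_zero]
    have e := hQ ((1 / c) • v.e k j) ((h2 D _ hw1).2 n) h0 hw1
    have e3 : a ⟨th D n ((1 / c) • v.e k j), (h2 D _ hw1).2 n⟩ = a ⟨0, h0⟩ :=
      congrArg a (Subtype.ext ht)
    rw [e3, sub_self, map_smul] at e
    exact (smul_eq_zero.1 e).resolve_left (by positivity)
  have hbet : bet D v k R = bet D v k (R - Q) := by
    unfold bet
    congr 1
    refine Finset.sum_congr rfl fun j _ => ?_
    rw [ContinuousLinearMap.sub_apply, hz j, sub_zero]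
  rw [hbet]
  calc |bet D v k (R - Q)| ≤ C * ‖R - Q‖ := hB _ k
    _ ≤ C * (ε / C) := mul_le_mul_of_nonneg_left hnorm hC.le
    _ = ε := by field_simp

end Pool.Agent.Helper20.WD
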